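import Mathlib
import Pool.Agent.Helper61.QS.GoalsG

/-!
Project QS, packet G3: the curvature number exists.
-/

set_option autoImplicit false

namespace Pool.Agent.Helper86.QS

open Pool.Agent.Helper61.QS

theorem exists_riesz (B : R4 →L[ℝ] R4 →L[ℝ] ℝ) (hB : ∀ u, u ≠ 0 → 0 < B u u) (φ : R4 →L[ℝ] ℝ) :
    ∃ u, ∀ c, B u c = φ c := by
  let M : R4 →ₗ[ℝ] Module.Dual ℝ R4 :=
    { toFun := fun u => (B u : R4 →ₗ[ℝ] ℝ)
      map_add' := by
        intro u v
        ext c <;> simp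
      map_smul' := by
        intro r u
        ext c <;> simp }
  have hM : ∀ u c, M u c = B u c := fun u c => rfl
  have hinj : Function.Injective M := by
    rw [← LinearMap.ker_eq_bot, LinearMap.ker_eq_bot']
    intro u hu
    by_contra hne
    have h1 := hB u hne
    rw [← hM, hu] at h1
    simp at h1
  have hsur : Function.Surjective M :=
    (LinearMap.injective_iff_surjective_of_finrank_eq_finrank
      (Subspace.dual_finrank_eq (K := ℝ) (V := R4)).symm).1 hinj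
  obtain ⟨u, hu⟩ := hsur (φ : R4 →ₗ[ℝ] ℝ)
  refine ⟨u, fun c => ?_⟩
  rw [← hM, hu]
  rfl

theorem fderiv_app (h : R4 → R4 →L[ℝ] R4 →L[ℝ] ℝ) (x : R4) (hh : DifferentiableAt ℝ h x)
    (b c a : R4) : fderiv ℝ (fun y => h y b c) x a = (fderiv ℝ h x a) b c := by
  have h1 := ((hh.hasFDerivAt.clm_apply (hasFDerivAt_const b x)).clm_apply
    (hasFDerivAt_const c x)).fderiv
  rw [h1]
  simp

theorem exists_gam (h : R4 → R4 →L[ℝ] R4 →L[ℝ] ℝ) (x : R4) (hh : DifferentiableAt ℝ h x)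
    (hB : ∀ u, u ≠ 0 → 0 < h x u u) (a b : R4) : ∃ u, ∀ c, h x u c = Gam h x a b c := by
  obtain ⟨u, hu⟩ := exists_riesz (h x) hB ((1 / 2 : ℝ) • ((fderiv ℝ h x a) b +
    (fderiv ℝ h x b) a - fderiv ℝ (fun y => h y a b) x))
  refine ⟨u, fun c => ?_⟩
  rw [hu c]
  unfold Gam
  rw [fderiv_app h x hh b c a, fderiv_app h x hh a c b]
  simp only [ContinuousLinearMap.smul_apply, ContinuousLinearMap.add_apply,
    ContinuousLinearMap.sub_apply, smul_eq_mul]
  ring

/-- Packet G3. -/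
theorem goalG3 : G_G3 := by
  intro h x hh hB a b
  obtain ⟨cab, h1⟩ := exists_gam h x hh hB a b
  obtain ⟨caa, h2⟩ := exists_gam h x hh hB a a
  obtain ⟨cbb, h3⟩ := exists_gam h x hh hB b b
  exact ⟨_, cab, caa, cbb, h1, h2, h3, rfl⟩

end Pool.Agent.Helper86.QS
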