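import Mathlib
import Pool.Agent.Helper61.QS.GoalsC

/-!
Project QS, packet CLB: splitting into planes and at most one line.
-/

set_option autoImplicit false

open scoped InnerProductSpace

namespace Pool.Agent.Helper86.QS

open Pool.Agent.Helper61.QS

variable {k : ℕ}

theorem proj_mul (W : Submodule ℝ (V k)) : W.starProjection * W.starProjection =
    (W.starProjection : En k) := W.isIdempotentElem_starProjection

theorem proj_star (W : Submodule ℝ (V k)) : star (W.starProjection : En k) = W.starProjection := by
  rw [ContinuousLinearMap.star_eq_adjoint]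
  symm
  rw [ContinuousLinearMap.eq_adjoint_iff]
  intro x y
  exact W.inner_starProjection_left_eq_right x y

theorem proj_comm (W : Submodule ℝ (V k)) (x : En k) (h : ∀ v ∈ W, x v ∈ W ∧ (star x) v ∈ W) :
    x * W.starProjection = W.starProjection * x := by
  ext v
  show x (W.starProjection v) = W.starProjection (x v)
  refine (Submodule.eq_starProjection_of_mem_of_inner_eq_zero
    (h _ (W.starProjection_apply_mem v)).1 ?_).symm
  intro w hw
  have h2 := (h w hw).2
  rw [ContinuousLinearMap.star_eq_adjoint] at h2
  rw [← map_sub, ← ContinuousLinearMap.adjoint_inner_right]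
  exact W.starProjection_inner_eq_zero v _ h2

theorem proj_tr (W : Submodule ℝ (V k)) :
    tr (W.starProjection : En k) = (Module.finrank ℝ W : ℝ) := by
  have h : LinearMap.IsProj W ((W.starProjection : En k) : V k →ₗ[ℝ] V k) := by
    constructor
    · intro x
      exact W.starProjection_apply_mem x
    · intro x hx
      exact Submodule.starProjection_eq_self_iff.2 hx
  exact h.trace

theorem proj_split (W P : Submodule ℝ (V k)) (hP : P ≤ W) :
    (W.starProjection : En k) = (Pᗮ ⊓ W).starProjection + P.starProjection := by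
  ext v
  show W.starProjection v = (Pᗮ ⊓ W).starProjection v + P.starProjection v
  have h1 : (Pᗮ ⊓ W).starProjection v ∈ Pᗮ ⊓ W := Submodule.starProjection_apply_mem _ v
  have h2 : P.starProjection v ∈ P := Submodule.starProjection_apply_mem _ v
  refine Submodule.eq_starProjection_of_mem_of_inner_eq_zero
    (W.add_mem h1.2 (hP h2)) ?_
  intro w hw
  have h3 : P.starProjection w ∈ P := Submodule.starProjection_apply_mem _ w
  have h4 : w - P.starProjection w ∈ Pᗮ ⊓ W :=
    ⟨P.sub_starProjection_mem_orthogonal w, W.sub_mem hw (hP h3)⟩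
  have e1 : ⟪v - P.starProjection v, P.starProjection w⟫_ℝ = 0 :=
    P.starProjection_inner_eq_zero v _ h3
  have e2 : ⟪v - (Pᗮ ⊓ W).starProjection v, w - P.starProjection w⟫_ℝ = 0 :=
    (Pᗮ ⊓ W).starProjection_inner_eq_zero v _ h4
  have e3 : ⟪(Pᗮ ⊓ W).starProjection v, P.starProjection w⟫_ℝ = 0 := by
    rw [real_inner_comm]
    exact (Submodule.mem_orthogonal P _).1 h1.1 _ h3
  have e4 : ⟪P.starProjection v, w - P.starProjection w⟫_ℝ = 0 :=
    (Submodule.mem_orthogonal P _).1 h4.1 _ h2
  have e5 : v - ((Pᗮ ⊓ W).starProjection v + P.starProjection v) =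
      (v - P.starProjection v) - (Pᗮ ⊓ W).starProjection v := by abel
  have e6 : ⟪v - ((Pᗮ ⊓ W).starProjection v + P.starProjection v), P.starProjection w⟫_ℝ = 0 := by
    rw [e5, inner_sub_left, e1, e3, sub_zero]
  have e7 : v - ((Pᗮ ⊓ W).starProjection v + P.starProjection v) =
      (v - (Pᗮ ⊓ W).starProjection v) - P.starProjection v := by abel
  have e8 : ⟪v - ((Pᗮ ⊓ W).starProjection v + P.starProjection v),
      w - P.starProjection w⟫_ℝ = 0 := by
    rw [e7, inner_sub_left, e2, e4, sub_zero]
  have e9 : w = P.starProjection w + (w - P.starProjection w) := by abel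
  rw [e9, inner_add_right, e6, e8, add_zero]

theorem proj_orth (W P : Submodule ℝ (V k)) :
    (Pᗮ ⊓ W).starProjection * (P.starProjection : En k) = 0 := by
  ext v
  show (Pᗮ ⊓ W).starProjection (P.starProjection v) = 0
  rw [Submodule.starProjection_apply_eq_zero_iff, Submodule.mem_orthogonal]
  intro u hu
  rw [real_inner_comm]
  exact (Submodule.mem_orthogonal P _).1 hu.1 _ (Submodule.starProjection_apply_mem _ v)

theorem inv_inf (S : Set (En k)) (W P : Submodule ℝ (V k))
    (hW : ∀ x ∈ S, ∀ v ∈ W, x v ∈ W ∧ (star x) v ∈ W)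
    (hP : ∀ x ∈ S, ∀ v ∈ P, x v ∈ P ∧ (star x) v ∈ P) :
    ∀ x ∈ S, ∀ v ∈ Pᗮ ⊓ W, x v ∈ Pᗮ ⊓ W ∧ (star x) v ∈ Pᗮ ⊓ W := by
  intro x hx v hv
  refine ⟨⟨?_, (hW x hx v hv.2).1⟩, ⟨?_, (hW x hx v hv.2).2⟩⟩
  · show x v ∈ Pᗮ
    rw [Submodule.mem_orthogonal]
    intro u hu
    rw [← ContinuousLinearMap.adjoint_inner_left, ← ContinuousLinearMap.star_eq_adjoint]
    exact (Submodule.mem_orthogonal P _).1 hv.1 _ (hP x hx u hu).2
  · show (star x) v ∈ Pᗮ
    rw [Submodule.mem_orthogonal]
    intro u hu
    rw [ContinuousLinearMap.star_eq_adjoint, ContinuousLinearMap.adjoint_inner_right]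
    exact (Submodule.mem_orthogonal P _).1 hv.1 _ (hP x hx u hu).1

theorem clb_aux (hCLA : G_CLA) (S : Set (En k))
    (hS : ∀ x ∈ S, ∀ y ∈ S, x * y = y * x ∧ x * star y = star y * x) :
    ∀ (d : ℕ) (W : Submodule ℝ (V k)), Module.finrank ℝ W = d →
      (∀ x ∈ S, ∀ v ∈ W, x v ∈ W ∧ (star x) v ∈ W) →
      ∃ (N : ℕ) (π : Fin N → En k),
        (∀ j, π j * π j = π j ∧ star (π j) = π j ∧ ∀ x ∈ S, x * π j = π j * x) ∧
        (∀ i j, i ≠ j → π i * π j = 0) ∧ ∑ j, π j = W.starProjection ∧
        ∀ j, tr (π j) = 2 ∨ (tr (π j) = 1 ∧ j.val = 0) := by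
  intro d
  induction d using Nat.strong_induction_on with
  | _ d ih =>
    intro W hd hW
    rcases Nat.lt_or_ge d 1 with h0 | h1
    · have h0' : Module.finrank ℝ W = 0 := by omega
      have hb : W = ⊥ := Submodule.finrank_eq_zero.1 h0'
      refine ⟨0, fun j => 0, fun j => j.elim0, fun j => j.elim0, ?_, fun j => j.elim0⟩
      subst hb
      rw [Submodule.starProjection_bot]
      simp
    rcases Nat.lt_or_ge d 2 with h2 | h2
    · have h1' : Module.finrank ℝ W = 1 := by omega
      refine ⟨1, fun _ => W.starProjection, fun j => ⟨proj_mul W, proj_star W,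
        fun x hx => proj_comm W x (hW x hx)⟩, ?_, ?_, ?_⟩
      · intro i j hij
        exact absurd (Subsingleton.elim i j) hij
      · simp
      · intro j
        right
        refine ⟨?_, by omega⟩
        rw [proj_tr, h1']
        norm_num
    · obtain ⟨P, hPW, hP2, hPS⟩ := hCLA k S hS W hW (by omega)
      have hdim := Submodule.finrank_add_inf_finrank_orthogonal hPW
      obtain ⟨N, π, hπ, hπ0, hπs, hπt⟩ := ih (d - 2) (by omega) (Pᗮ ⊓ W) (by omega)
        (inv_inf S W P hW hPS)
      have e1 : ∀ j, π j * (Pᗮ ⊓ W).starProjection = π j := by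
        intro j
        rw [← hπs, Finset.mul_sum, Finset.sum_eq_single j]
        · exact (hπ j).1
        · intro i _ hij
          exact hπ0 j i (Ne.symm hij)
        · intro h
          exact absurd (Finset.mem_univ j) h
      have e2 : ∀ j, π j * P.starProjection = 0 := by
        intro j
        rw [← e1 j, mul_assoc, proj_orth, mul_zero]
      have e3 : ∀ j, P.starProjection * π j = 0 := by
        intro j
        have h := congrArg star (e2 j)
        rw [star_mul, proj_star, (hπ j).2.1, star_zero] at h
        exact h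
      refine ⟨N + 1, Fin.snoc (α := fun _ => En k) π P.starProjection, ?_, ?_, ?_, ?_⟩
      · intro j
        induction j using Fin.lastCases with
        | last =>
          rw [Fin.snoc_last]
          exact ⟨proj_mul P, proj_star P, fun x hx => proj_comm P x (hPS x hx)⟩
        | cast j =>
          rw [Fin.snoc_castSucc]
          exact hπ j
      · intro i j hij
        induction i using Fin.lastCases with
        | last =>
          induction j using Fin.lastCases with
          | last => exact absurd rfl hij
          | cast j =>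
            rw [Fin.snoc_castSucc, Fin.snoc_last]
            exact e3 j
        | cast i =>
          induction j using Fin.lastCases with
          | last =>
            rw [Fin.snoc_castSucc, Fin.snoc_last]
            exact e2 i
          | cast j =>
            rw [Fin.snoc_castSucc, Fin.snoc_castSucc]
            exact hπ0 i j (fun h => hij (by rw [h]))
      · rw [Fin.sum_univ_castSucc]
        simp only [Fin.snoc_castSucc, Fin.snoc_last]
        rw [hπs, proj_split W P hPW]
      · intro j
        induction j using Fin.lastCases with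
        | last =>
          rw [Fin.snoc_last]
          left
          rw [proj_tr, hP2]
          norm_num
        | cast j =>
          rw [Fin.snoc_castSucc]
          exact hπt j

/-- Packet CLB. -/
theorem goalCLB (hCLA : G_CLA) : G_CLB := by
  intro k S hS
  obtain ⟨N, π, h1, h2, h3, h4⟩ := clb_aux hCLA S hS _ ⊤ rfl
    (fun x _ v _ => ⟨Submodule.mem_top, Submodule.mem_top⟩)
  refine ⟨N, π, h1, h2, ?_, h4⟩
  rw [h3, Submodule.starProjection_top']

end Pool.Agent.Helper86.QS
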