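import Mathlib
import Pool.Agent.Helper61.QS.GoalsG

/-!
Project QS, packet SP: product metrics.
-/

set_option autoImplicit false

namespace Pool.Agent.Helper86.QS

open Pool.Agent.Helper61.QS

/-- type 1 -/
def T1 (u : R4) : Prop := u.2.1 = 0 ∧ u.2.2.2 = 0

/-- type 2 -/
def T2 (u : R4) : Prop := u.1 = 0 ∧ u.2.2.1 = 0

/-- type 1 component -/
def c1 (u : R4) : R4 := (u.1, 0, u.2.2.1, 0)

/-- type 2 component -/
def c2 (u : R4) : R4 := (0, u.2.1, 0, u.2.2.2)

theorem c1_T1 (u : R4) : T1 (c1 u) := ⟨rfl, rfl⟩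

theorem c2_T2 (u : R4) : T2 (c2 u) := ⟨rfl, rfl⟩

theorem c12 (u : R4) : u = c1 u + c2 u := by
  obtain ⟨a, b, c, d⟩ := u
  simp [c1, c2]

theorem fderiv_const_dir (f : R4 → ℝ) (x w : R4) (hf : ∀ t : ℝ, f (x + t • w) = f x) :
    fderiv ℝ f x w = 0 := by
  by_cases hd : DifferentiableAt ℝ f x
  · have h1 : HasDerivAt (fun t : ℝ => x + t • w) w 0 := by
      have := ((hasDerivAt_id (0 : ℝ)).smul_const w).const_add x
      simpa using this
    have h2 : HasFDerivAt f (fderiv ℝ f x) (x + (0 : ℝ) • w) := by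
      simpa using hd.hasFDerivAt
    have h3 := h2.comp_hasDerivAt (0 : ℝ) h1
    have h4 : HasDerivAt (fun t : ℝ => f (x + t • w)) (0 : ℝ) 0 := by
      have : (fun t : ℝ => f (x + t • w)) = fun _ => f x := funext hf
      rw [this]
      exact hasDerivAt_const 0 (f x)
    exact h3.unique h4
  · rw [fderiv_zero_of_not_differentiableAt hd]
    rfl

theorem sp_core (h : R4 → R4 →L[ℝ] R4 →L[ℝ] ℝ) (x : R4)
    (hsymm : ∀ y u v, h y u v = h y v u)
    (h12 : ∀ y u v, T1 u → T2 v → h y u v = 0)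
    (h11 : ∀ y u v w, T1 u → T1 v → T2 w → h (y + w) u v = h y u v)
    (h22 : ∀ y u v w, T2 u → T2 v → T1 w → h (y + w) u v = h y u v)
    (a b : R4) (ha : T1 a) (hb : T2 b) (K : ℝ) (hK : IsCurv h x a b K) : K = 0 := by
  obtain ⟨cab, caa, cbb, e1, e2, e3, e4⟩ := hK
  have h21 : ∀ y u v, T2 u → T1 v → h y u v = 0 := by
    intro y u v hu hv
    rw [hsymm]
    exact h12 y v u hv hu
  have T1s : ∀ (t : ℝ) (w : R4), T1 w → T1 (t • w) := by
    intro t w hw
    refine ⟨?_, ?_⟩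
    · show t * w.2.1 = 0
      rw [hw.1, mul_zero]
    · show t * w.2.2.2 = 0
      rw [hw.2, mul_zero]
  have T2s : ∀ (t : ℝ) (w : R4), T2 w → T2 (t • w) := by
    intro t w hw
    refine ⟨?_, ?_⟩
    · show t * w.1 = 0
      rw [hw.1, mul_zero]
    · show t * w.2.2.1 = 0
      rw [hw.2, mul_zero]
  -- components
  have r1 : ∀ y u v, T1 u → h y u v = h y u (c1 v) := by
    intro y u v hu
    conv_lhs => rw [c12 v]
    rw [map_add, h12 y u (c2 v) hu (c2_T2 v), add_zero]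
  have r2 : ∀ y u v, T2 u → h y u v = h y u (c2 v) := by
    intro y u v hu
    conv_lhs => rw [c12 v]
    rw [map_add, h21 y u (c1 v) hu (c1_T1 v), zero_add]
  -- derivatives
  have d1 : ∀ y u v w, T1 u → T2 w → fderiv ℝ (fun z => h z u v) y w = 0 := by
    intro y u v w hu hw
    refine fderiv_const_dir _ _ _ ?_
    intro t
    show h (y + t • w) u v = h y u v
    rw [r1 _ u v hu, r1 _ u v hu]
    exact h11 y u (c1 v) (t • w) hu (c1_T1 v) (T2s t w hw)
  have d2 : ∀ y u v w, T2 u → T1 w → fderiv ℝ (fun z => h z u v) y w = 0 := by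
    intro y u v w hu hw
    refine fderiv_const_dir _ _ _ ?_
    intro t
    show h (y + t • w) u v = h y u v
    rw [r2 _ u v hu, r2 _ u v hu]
    exact h22 y u (c2 v) (t • w) hu (c2_T2 v) (T1s t w hw)
  have z12 : ∀ u v, T1 u → T2 v → (fun z => h z u v) = fun _ => (0 : ℝ) := by
    intro u v hu hv
    funext z
    exact h12 z u v hu hv
  have z21 : ∀ u v, T2 u → T1 v → (fun z => h z u v) = fun _ => (0 : ℝ) := by
    intro u v hu hv
    funext z
    exact h21 z u v hu hv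
  have gab : ∀ u, Gam h x a b u = 0 := by
    intro u
    unfold Gam
    rw [d2 x b u a hb ha, d1 x a u b ha hb, z12 a b ha hb]
    simp
  have gaa : ∀ u, T2 u → Gam h x a a u = 0 := by
    intro u hu
    unfold Gam
    rw [z12 a u ha hu, d1 x a a u ha hu]
    simp
  have gbb : ∀ u, T1 u → Gam h x b b u = 0 := by
    intro u hu
    unfold Gam
    rw [z21 b u hb hu, d2 x b b u hb hu]
    simp
  have s1 : dd (fun y => h y b b) x a a = 0 := by
    unfold dd
    have : (fun y => fderiv ℝ (fun y => h y b b) y a) = fun _ => (0 : ℝ) := by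
      funext y
      exact d2 y b b a hb ha
    rw [this]
    simp
  have s2 : dd (fun y => h y a a) x b b = 0 := by
    unfold dd
    have : (fun y => fderiv ℝ (fun y => h y a a) y b) = fun _ => (0 : ℝ) := by
      funext y
      exact d1 y a a b ha hb
    rw [this]
    simp
  have s3 : dd (fun y => h y a b) x a b = 0 := by
    unfold dd
    have : (fun y => fderiv ℝ (fun y => h y a b) y b) = fun _ => (0 : ℝ) := by
      funext y
      exact d1 y a b b ha hb
    rw [this]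
    simp
  have t1 : h x cab cab = 0 := by rw [e1, gab]
  have t2 : h x caa cbb = 0 := by
    have q1 : h x caa (c2 cbb) = 0 := by rw [e2, gaa _ (c2_T2 cbb)]
    have q2 : h x caa (c1 cbb) = 0 := by
      have q3 : h x cbb (c1 caa) = 0 := by rw [e3, gbb _ (c1_T1 caa)]
      have q4 : h x cbb (c1 caa) = h x (c1 cbb) (c1 caa) := by
        rw [hsymm x cbb (c1 caa), r1 x (c1 caa) cbb (c1_T1 caa), hsymm]
      have q5 : h x caa (c1 cbb) = h x (c1 cbb) (c1 caa) := by
        rw [hsymm x caa (c1 cbb), r1 x (c1 cbb) caa (c1_T1 cbb)]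
      rw [q5, ← q4, q3]
    rw [c12 cbb, map_add, q1, q2, add_zero]
  rw [e4, s1, s2, s3, t1, t2]
  norm_num

/-- Packet SP. -/
theorem goalSP (hPL : G_PL) (hBX : G_BX) : G_SP := by
  intro gM H K hB _ _ hgM x hx
  obtain ⟨_, hX, hTX, hD, _⟩ := hPL
  obtain ⟨_, hsymm, _, hex⟩ := hBX 0 gM hB
  have hh : ∀ y u v, gB gM pol y u v =
      H (pol y).1 (fderiv ℝ pol y u).1 (fderiv ℝ pol y v).1 +
      K (pol y).2 (fderiv ℝ pol y u).2 (fderiv ℝ pol y v).2 := by
    intro y u v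
    exact hgM (pol y) (hX y) _ (hTX y u) _ (hTX y v)
  have D1 : ∀ y u, T2 u → (fderiv ℝ pol y u).1 = 0 := by
    intro y u hu
    rw [hD, hu.1, hu.2]
    simp
  have D2 : ∀ y u, T1 u → (fderiv ℝ pol y u).2 = 0 := by
    intro y u hu
    rw [hD, hu.1, hu.2]
    simp
  have E1 : ∀ y w, T2 w → (pol (y + w)).1 = (pol y).1 ∧
      ∀ u, (fderiv ℝ pol (y + w) u).1 = (fderiv ℝ pol y u).1 := by
    intro y w hw
    have f1 : (y + w).1 = y.1 := by
      show y.1 + w.1 = y.1
      rw [hw.1, add_zero]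
    have f2 : (y + w).2.2.1 = y.2.2.1 := by
      show y.2.2.1 + w.2.2.1 = y.2.2.1
      rw [hw.2, add_zero]
    refine ⟨?_, fun u => ?_⟩
    · unfold pol
      rw [f1, f2]
    · rw [hD, hD, f1, f2]
  have E2 : ∀ y w, T1 w → (pol (y + w)).2 = (pol y).2 ∧
      ∀ u, (fderiv ℝ pol (y + w) u).2 = (fderiv ℝ pol y u).2 := by
    intro y w hw
    have f1 : (y + w).2.1 = y.2.1 := by
      show y.2.1 + w.2.1 = y.2.1
      rw [hw.1, add_zero]
    have f2 : (y + w).2.2.2 = y.2.2.2 := by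
      show y.2.2.2 + w.2.2.2 = y.2.2.2
      rw [hw.2, add_zero]
    refine ⟨?_, fun u => ?_⟩
    · unfold pol
      rw [f1, f2]
    · rw [hD, hD, f1, f2]
  obtain ⟨K0, hK0⟩ := hex x hx
  have hz := sp_core (gB gM pol) x hsymm ?_ ?_ ?_ (1, 0, 0, 0) (0, 1, 0, 0) ⟨rfl, rfl⟩
    ⟨rfl, rfl⟩ K0 hK0
  · rw [hz] at hK0
    exact hK0
  · intro y u v hu hv
    rw [hh, D2 y u hu, D1 y v hv]
    simp
  · intro y u v w hu hv hw
    rw [hh, hh, D2 y u hu, D2 _ u hu, (E1 y w hw).1, (E1 y w hw).2, (E1 y w hw).2]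
    simp
  · intro y u v w hu hv hw
    rw [hh, hh, D1 y u hu, D1 _ u hu, (E2 y w hw).1, (E2 y w hw).2, (E2 y w hw).2]
    simp

end Pool.Agent.Helper86.QS
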